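import Pool.Agent.Helper29.AntiFrob.Comm

set_option autoImplicit false

namespace Pool.Agent.Results.MP_9890f7_al.CommutativeBase

open Pool.Agent.Helper29.AntiFrob

/-- Classification for commutative `S`, that is, `S` a product of copies of the complex numbers. -/
theorem result {ι : Type} [Fintype ι] (m : Option ι → Option ι → ℕ) :
    IsAntiFrobenius (SqZero (fun _ : ι => 1) m) ↔
      (∀ a : Option ι, Even (m a a)) ∧ (∀ a b : Option ι, m a b ≤ m b a + 1) ∧
        (diffGraph m).IsTree :=
  comm_classification

end Pool.Agent.Results.MP_9890f7_al.CommutativeBase
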