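import Pool.Agent.AFM.Final

/-!
# The exact reduction steps at an arbitrary simple factor
-/

set_option autoImplicit false

namespace Pool.Agent.Results.MP_9890f7_al.Moves

open Pool.Agent.Helper29.AntiFrob

/-- Let `u` and `v` be the total sizes of the incoming and of the outgoing part at the factor `i`
of the difference digraph. -/
theorem result {ι : Type} [Fintype ι] [DecidableEq ι] (n : ι → ℕ) (hn : ∀ j, 0 < n j)
    (m : Option ι → Option ι → ℕ) (i : ι) (u v : ℕ)
    (hu : u = ∑ b, (m b (some i) - m (some i) b) * size n b)
    (hv : v = ∑ b, (m (some i) b - m b (some i)) * size n b) :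
    (∀ w, 0 < w → (IsAntiFrobenius (SqZero (Function.update n i (u + w)) m) ↔
      IsAntiFrobenius (SqZero (Function.update n i (v + w)) m))) ∧
    (u = v → u < n i → ¬ IsAntiFrobenius (SqZero n m)) ∧
    (n i = u ∨ n i = v →
      (∀ a b, m (some i) a < m a (some i) → m b (some i) < m (some i) b → m b a ≤ m a b) →
      (IsAntiFrobenius (SqZero n m) ↔ Even (m (some i) (some i)) ∧
        IsAntiFrobenius (SqZero (fun j : {j : ι // j ≠ i} => n j)
          (fun a b => m (a.map Subtype.val) (b.map Subtype.val) +
            (m (a.map Subtype.val) (some i) - m (some i) (a.map Subtype.val)) *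
              (m (some i) (b.map Subtype.val) - m (b.map Subtype.val) (some i)))))) ∧
    (u = 0 ∨ v = 0 → n i < u + v → (IsAntiFrobenius (SqZero n m) ↔
      IsAntiFrobenius (SqZero (Function.update n i (u + v - n i)) (swapAt i m)))) ∧
    (∀ a, Relation.TransGen (fun a b => m b a < m a b) a a →
      ¬ IsAntiFrobenius (SqZero n m)) := by
  have hs : ∀ b, 0 < size n b := by
    intro b
    cases b with
    | none => exact Nat.one_pos
    | some j => exact hn j
  refine ⟨?_, ?_, ?_, ?_, ?_⟩
  · intro w hw
    exact (Pool.Agent.AFM.af_shift i n hn m u v hu hv w hw).symm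
  · exact Pool.Agent.AFM.af_never i n hn m u v hu hv
  · exact Pool.Agent.AFM.af_delete i n hn m u v hu hv
  · intro h0 hlt
    have hN : u + v = ∑ b, ((m (some i) b - m b (some i)) + (m b (some i) - m (some i) b)) *
        size n b := by
      rw [hu, hv, ← Finset.sum_add_distrib]
      exact Finset.sum_congr rfl fun b _ => by ring
    refine (castling i n hn m (u + v) hN ?_).2.2 hlt
    rcases h0 with h0 | h0
    · left
      intro b
      rw [h0] at hu
      have h1 := (Finset.sum_eq_zero_iff.1 hu.symm) b (Finset.mem_univ b)
      rcases Nat.mul_eq_zero.1 h1 with h2 | h2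
      · omega
      · have := hs b
        omega
    · right
      intro b
      rw [h0] at hv
      have h1 := (Finset.sum_eq_zero_iff.1 hv.symm) b (Finset.mem_univ b)
      rcases Nat.mul_eq_zero.1 h1 with h2 | h2
      · omega
      · have := hs b
        omega
  · intro a ha h
    exact Pool.Agent.AFM.af_acyclic n hn m h a ha

end Pool.Agent.Results.MP_9890f7_al.Moves
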