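import Pool.Agent.AFM.Pairs

/-!
# Complete classification when every simple factor interacts asymmetrically with at most one other
-/

set_option autoImplicit false

namespace Pool.Agent.Results.MP_9890f7_al.PairCore

open Pool.Agent.Helper29.AntiFrob Pool.Agent.AFM

theorem result {ι : Type} [Fintype ι] (n : ι → ℕ) (hn : ∀ i, 0 < n i)
    (m : Option ι → Option ι → ℕ)
    (hb : ∀ i j, m (some i) (some j) ≤ m (some j) (some i) + 1)
    (hp : ∀ i j k, m (some i) (some j) ≠ m (some j) (some i) →
      m (some i) (some k) ≠ m (some k) (some i) → j = k) :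
    IsAntiFrobenius (SqZero n m) ↔ (∀ a, Even (m a a)) ∧
      (∀ i, (∀ j, m (some i) (some j) = m (some j) (some i)) →
        ((m none (some i) : ℤ) - m (some i) none) ∣ n i) ∧
      (∀ i j, m (some i) (some j) = m (some j) (some i) + 1 →
        PairCond ((m none (some i) : ℤ) - m (some i) none)
          ((m none (some j) : ℤ) - m (some j) none) (n i) (n j)) :=
  pairs n hn m hb hp

end Pool.Agent.Results.MP_9890f7_al.PairCore
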