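import Pool.Agent.Helper29.AntiFrob.Final

set_option autoImplicit false

namespace Pool.Agent.Results.MP_9890f7_al.Reduction

open Pool.Agent.Helper29.AntiFrob

/-- The algebra `S ⊕ M` is anti-Frobenius exactly when the diagonal multiplicities are even and
`S ⊕ R`, with `R` the one-way part of `M`, has a Frobenius functional. -/
theorem result {ι : Type} [Fintype ι] (n : ι → ℕ) (hn : ∀ i, 0 < n i)
    (m : Option ι → Option ι → ℕ) :
    IsAntiFrobenius (SqZero n m) ↔
      (∀ a : Option ι, Even (m a a)) ∧
        HasFrobeniusFunctional (SqZero n (fun a b => m a b - m b a)) :=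
  reduction hn

end Pool.Agent.Results.MP_9890f7_al.Reduction
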